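import Pool.Agent.Q239.EB.APT1
import Pool.Agent.W591.TL.Law
import Pool.Agent.W975.TLTail
import Pool.Agent.W290.TL.Near

/-!
Project EB (helper270), job APT: mean values of tame functions in residue classes.
-/

set_option autoImplicit false

namespace Pool.Agent.Q239.EB

open Finset Filter Pool.Agent.Q270.EA Pool.Agent.Q270.EB
open Pool.Agent.W208.TL (sm PP mu lf Indep CLAIM nit Tame Mul1)

/-- CLAIM for one form -/
lemma claim1 (ε : ℝ) (hε : 0 < ε) : ∃ K1 K w0 : ℕ, 1 ≤ K1 ∧ 1 ≤ K ∧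
    ∀ w Q : ℕ, w0 ≤ w → 1 ≤ Q → (∀ l : ℕ, l.Prime → l ∣ Q → l ≤ w) → ∃ y0 : ℕ, ∀ y : ℕ, y0 ≤ y →
      |∑ d ∈ Icc 1 (y ^ K1), mu w y d - 1| ≤ ε ∧
      ∀ b M : ℕ, y ^ K ≤ M → ∀ Φ : ℕ → ℂ, (∀ d, ‖Φ d‖ ≤ 1) →
        ‖((Q : ℂ) / (M : ℂ)) * ∑ m ∈ (Ioc 0 M).filter (fun m => m ≡ b [MOD Q]), Φ (sm w y m) -
          ∑ d ∈ Icc 1 (y ^ K1), Φ d * (mu w y d : ℂ)‖ ≤ ε := by
  obtain ⟨K1, K, w0, hK1, hK, h⟩ := Pool.Agent.W479.TLClaim.claim Pool.Agent.W591.TL.law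
    Pool.Agent.W975.TL.tail 1 le_rfl ε hε
  refine ⟨K1, K, w0, hK1, hK, fun w Q hw hQ hl => ?_⟩
  obtain ⟨y0, hy0⟩ := h w Q hw hQ hl
  refine ⟨y0, fun y hy => ⟨(hy0 y hy).1, fun b M hM Φ hΦ => ?_⟩⟩
  have h1 := (hy0 y hy).2 (fun _ => 1) (fun _ => 0)
    ⟨fun _ => le_rfl, fun l hl hlw => ⟨fun i h => by
      have := Nat.le_of_dvd one_pos h
      have := hl.two_le
      omega, fun i j hij _ => hij (Subsingleton.elim i j)⟩⟩ b M hM (fun d => Φ (d 0))
      (fun d => hΦ _)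
  have h2 : ∀ m : ℕ, lf 1 0 m = m := by
    intro m
    unfold lf
    simp
  simp only [h2] at h1
  have h3 : ∑ d ∈ Pool.Agent.W208.TL.box 1 (y ^ K1), Φ (d 0) * ∏ i, (mu w y (d i) : ℂ) =
      ∑ d ∈ Icc 1 (y ^ K1), Φ d * (mu w y d : ℂ) := by
    have h4 : ∀ d : Fin 1 → ℕ, Φ (d 0) * ∏ i, (mu w y (d i) : ℂ) =
        ∏ i, (Φ (d i) * (mu w y (d i) : ℂ)) := by
      intro d
      simp
    simp only [h4]
    unfold Pool.Agent.W208.TL.box
    rw [← prod_univ_sum (fun _ : Fin 1 => Icc 1 (y ^ K1))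
      (fun _ d => Φ d * (mu w y d : ℂ))]
    simp
  rw [h3] at h1
  exact h1

lemma sm_mul_sm (w y n : ℕ) (hwy : w ≤ y) : sm 0 y n = sm 0 w n * sm w y n := by
  unfold sm
  have hdis : Disjoint (PP 0 w) (PP w y) := by
    rw [Finset.disjoint_left]
    intro p h1 h2
    have := (mem_PP2.mp h1).1.2
    have := (mem_PP2.mp h2).1.1
    omega
  have hun : PP 0 w ∪ PP w y = PP 0 y := by
    ext p
    simp only [mem_union, mem_PP2]
    constructor
    · rintro (h | h)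
      · exact ⟨⟨h.1.1, h.1.2.trans hwy⟩, h.2⟩
      · exact ⟨⟨h.2.pos, h.1.2⟩, h.2⟩
    · intro h
      by_cases hp : p ≤ w
      · exact Or.inl ⟨⟨h.1.1, hp⟩, h.2⟩
      · exact Or.inr ⟨⟨by omega, h.1.2⟩, h.2⟩
  rw [← prod_union hdis, hun]

lemma prod_cop (w y : ℕ) (e f : ℕ → ℕ) :
    Nat.Coprime (∏ l ∈ PP 0 w, l ^ e l) (∏ l ∈ PP w y, l ^ f l) := by
  refine Nat.Coprime.prod_left fun p hp => Nat.Coprime.prod_right fun l hl => ?_
  refine Nat.Coprime.pow _ _ ?_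
  rw [Nat.coprime_primes (mem_PP2.1 hp).2 (mem_PP2.1 hl).2]
  intro h
  have := (mem_PP2.mp hp).1.2
  have := (mem_PP2.mp hl).1.1
  omega

lemma sm_cop (w y n : ℕ) : Nat.Coprime (sm 0 w n) (sm w y n) := prod_cop w y _ _

/-- the product of the `r`-th powers of the primes up to `w` -/
noncomputable def Pr (w r : ℕ) : ℕ := ∏ p ∈ PP 0 w, p ^ r

lemma Pr_pos (w r : ℕ) : 1 ≤ Pr w r := by
  unfold Pr
  exact Nat.one_le_iff_ne_zero.2 (prod_ne_zero_iff.2 fun p hp =>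
    pow_ne_zero _ (mem_PP2.1 hp).2.ne_zero)

lemma Pr_prime (w r l : ℕ) (hl : l.Prime) (h : l ∣ Pr w r) : l ≤ w := by
  unfold Pr at h
  obtain ⟨p, hp, h⟩ := (Prime.dvd_finsetProd_iff hl.prime _).1 h
  have h1 := hl.dvd_of_dvd_pow h
  rw [(Nat.prime_dvd_prime_iff_eq hl (mem_PP2.1 hp).2).1 h1]
  exact (mem_PP2.1 hp).1.2

lemma gcd_Pr (w r n : ℕ) (hn : n ≠ 0) (h : ∀ p ∈ PP 0 w, ¬ p ^ r ∣ n) :
    Nat.gcd n (Pr w r) = sm 0 w n := by
  have h1 := Pool.Agent.W290.TL.eq_sm_mul (y := w) (X := max w n) (le_max_left _ _) hn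
    (le_max_right _ _)
  have h2 : sm 0 w n ∣ Pr w r := by
    unfold sm Pr
    refine prod_dvd_prod_of_dvd _ _ fun p hp => pow_dvd_pow p ?_
    by_contra hcon
    push Not at hcon
    exact h p hp ((pow_dvd_pow p hcon.le).trans (Nat.ordProj_dvd n p))
  have h3 : Nat.Coprime (sm w (max w n) n) (Pr w r) :=
    (prod_cop w (max w n) (fun _ => r) (fun l => n.factorization l)).symm
  calc Nat.gcd n (Pr w r) = Nat.gcd (sm 0 w n * sm w (max w n) n) (Pr w r) := by rw [← h1]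
    _ = Nat.gcd (sm 0 w n) (Pr w r) := Nat.Coprime.gcd_mul_right_cancel _ h3
    _ = sm 0 w n := Nat.gcd_eq_left h2

lemma card_bad (w r X : ℕ) :
    (((Ioc 0 X).filter (fun n => ∃ p ∈ PP 0 w, p ^ r ∣ n)).card : ℝ) ≤ w / 2 ^ r * X := by
  classical
  have h1 : (Ioc 0 X).filter (fun n => ∃ p ∈ PP 0 w, p ^ r ∣ n) ⊆
      (PP 0 w).biUnion (fun p => (Ioc 0 X).filter (fun n => p ^ r ∣ n)) := by
    intro n hn
    rw [mem_filter] at hn
    obtain ⟨hn, p, hp, hd⟩ := hn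
    rw [mem_biUnion]
    exact ⟨p, hp, mem_filter.2 ⟨hn, hd⟩⟩
  have h2 : ∀ p ∈ PP 0 w, (((Ioc 0 X).filter (fun n => p ^ r ∣ n)).card : ℝ) ≤ X / 2 ^ r := by
    intro p hp
    rw [Nat.Ioc_filter_dvd_card_eq_div]
    refine (Nat.cast_div_le).trans ?_
    have hp2 : (2 : ℝ) ≤ p := by exact_mod_cast (mem_PP2.1 hp).2.two_le
    push_cast
    gcongr
  have h3 : (PP 0 w).card ≤ w := by
    refine (card_filter_le _ _).trans ?_
    simp
  calc (((Ioc 0 X).filter (fun n => ∃ p ∈ PP 0 w, p ^ r ∣ n)).card : ℝ)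
      ≤ (((PP 0 w).biUnion (fun p => (Ioc 0 X).filter (fun n => p ^ r ∣ n))).card : ℝ) := by
        exact_mod_cast card_le_card h1
    _ ≤ ∑ p ∈ PP 0 w, (((Ioc 0 X).filter (fun n => p ^ r ∣ n)).card : ℝ) := by
        exact_mod_cast card_biUnion_le
    _ ≤ ∑ p ∈ PP 0 w, (X / 2 ^ r : ℝ) := sum_le_sum h2
    _ = (PP 0 w).card * (X / 2 ^ r) := by rw [sum_const, nsmul_eq_mul]
    _ ≤ w * (X / 2 ^ r) := by gcongr
    _ = _ := by ring

/-- decomposition into residue classes -/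
lemma split_mod (X Q Q' b : ℕ) (hQ' : 1 ≤ Q') (hd : Q ∣ Q') (F : ℕ → ℂ) :
    ∑ n ∈ (Ioc 0 X).filter (fun n => n ≡ b [MOD Q]), F n =
      ∑ c ∈ (range Q').filter (fun c => c ≡ b [MOD Q]),
        ∑ n ∈ (Ioc 0 X).filter (fun n => n ≡ c [MOD Q']), F n := by
  classical
  rw [← sum_fiberwise_of_maps_to (s := (Ioc 0 X).filter (fun n => n ≡ b [MOD Q]))
    (t := (range Q').filter (fun c => c ≡ b [MOD Q])) (g := fun n => n % Q')]
  · refine sum_congr rfl fun c hc => ?_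
    rw [filter_filter]
    refine sum_congr ?_ fun _ _ => rfl
    ext n
    rw [mem_filter, mem_filter]
    rw [mem_filter, mem_range] at hc
    constructor
    · rintro ⟨h1, h2, h3⟩
      refine ⟨h1, ?_⟩
      unfold Nat.ModEq
      rw [h3, Nat.mod_eq_of_lt hc.1]
    · rintro ⟨h1, h2⟩
      refine ⟨h1, (h2.of_dvd hd).trans hc.2, ?_⟩
      unfold Nat.ModEq at h2
      rw [h2, Nat.mod_eq_of_lt hc.1]
  · intro n hn
    rw [mem_filter] at hn
    rw [mem_filter, mem_range]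
    refine ⟨Nat.mod_lt _ hQ', ?_⟩
    exact ((Nat.mod_modEq n Q').of_dvd hd).trans hn.2

/-- means of tame functions in residue classes -/
lemma meanA (u : ℕ → ℂ) (hu : BM u) (hut : Tame u)
    (hns : ¬ Summable (fun p : ℕ => if p.Prime then (1 - (u p).re) / (p : ℝ) else 0))
    (Q b : ℕ) (hQ : 1 ≤ Q) (ε : ℝ) (hε : 0 < ε) : ∃ X₀ : ℕ, ∀ X : ℕ, X₀ ≤ X →
      ‖∑ n ∈ (Ioc 0 X).filter (fun n => n ≡ b [MOD Q]), u n‖ ≤ ε * X := by
  classical
  obtain ⟨η, hη⟩ : ∃ η : ℝ, η = ε / 6 := ⟨_, rfl⟩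
  have hη0 : 0 < η := by rw [hη]; positivity
  obtain ⟨K1, K, w0, hK1, hK, hcl⟩ := claim1 η hη0
  obtain ⟨w, hw⟩ : ∃ w : ℕ, w = max w0 Q := ⟨_, rfl⟩
  have hw0 : w0 ≤ w := by rw [hw]; exact le_max_left _ _
  have hwQ : Q ≤ w := by rw [hw]; exact le_max_right _ _
  obtain ⟨r, hr⟩ := exists_pow_lt_of_lt_one (show 0 < η / (2 * (w + 1)) by positivity)
    (show (1 / 2 : ℝ) < 1 by norm_num)
  obtain ⟨Q', hQ'⟩ : ∃ Q' : ℕ, Q' = Q * Pr w r := ⟨_, rfl⟩
  have hQ'1 : 1 ≤ Q' := by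
    rw [hQ']
    exact Nat.mul_pos hQ (Pr_pos w r)
  obtain ⟨y0, hy0⟩ := hcl w Q' hw0 hQ'1 (fun l hl h => by
    rw [hQ'] at h
    rcases (Nat.Prime.dvd_mul hl).1 h with h | h
    · exact (Nat.le_of_dvd hQ h).trans hwQ
    · exact Pr_prime w r l hl h)
  obtain ⟨y1, hy1⟩ := Eu_small w u hu hns η hη0
  obtain ⟨δ, hδ0, y2, hnear⟩ := Pool.Agent.W290.TL.near (2 * K) η (by omega) hη0
  have hev := (hut K hK).eventually_lt_const hδ0
  obtain ⟨X1, hX1⟩ := eventually_atTop.1 hev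
  obtain ⟨ym, hym⟩ : ∃ ym : ℕ, ym = y0 + y1 + y2 + w + 2 := ⟨_, rfl⟩
  refine ⟨X1 + ym ^ K, fun X hX => ?_⟩
  obtain ⟨y, hy⟩ : ∃ y : ℕ, y = Nat.findGreatest (fun y => y ^ K ≤ X) X := ⟨_, rfl⟩
  have hself : ∀ z : ℕ, z ≤ z ^ K := fun z => Nat.le_self_pow (by omega) z
  have hyX : y ^ K ≤ X := by
    rw [hy]
    exact Nat.findGreatest_spec (P := fun y => y ^ K ≤ X) (Nat.zero_le X)
      (by simp [show K ≠ 0 by omega])
  have hge : ∀ z : ℕ, z ^ K ≤ X → z ≤ y := by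
    intro z hz
    rw [hy]
    exact Nat.le_findGreatest ((hself z).trans hz) hz
  have hyym : ym ≤ y := hge ym (by omega)
  have hlt : X < (y + 1) ^ K := by
    by_contra hcon
    push Not at hcon
    have := hge _ hcon
    omega
  have hyX' : y ≤ X := (hself y).trans hyX
  have hX2 : X ≤ y ^ (2 * K) := by
    rw [pow_mul]
    refine hlt.le.trans (Nat.pow_le_pow_left ?_ K)
    nlinarith
  have hX0 : (0 : ℝ) < X := by exact_mod_cast (by omega : 0 < X)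
  -- NEAR
  have hN1 := hnear y X (by omega) hyX' hX2 u hu (by
    have h1 := (hX1 X (by omega)).le
    refine le_trans ?_ h1
    refine sum_le_sum_of_subset_of_nonneg (fun p hp => ?_) fun p _ _ => ?_
    · have h2 := mem_PP2.1 hp
      rw [mem_filter, mem_Icc]
      refine ⟨⟨by omega, h2.1.2⟩, h2.2, hlt.trans_le (Nat.pow_le_pow_left h2.1.1 K)⟩
    · refine div_nonneg ?_ (Nat.cast_nonneg _)
      have := (Complex.re_le_norm (u p)).trans (hu.1 p)
      linarith)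
  -- the small primes
  obtain ⟨ρ, hρ⟩ : ∃ ρ : ℕ → ℂ, ρ = fun n => u (Nat.gcd n (Pr w r)) := ⟨_, rfl⟩
  have hρ1 : ∀ n, ‖ρ n‖ ≤ 1 := fun n => by rw [hρ]; exact hu.1 _
  have hN2 : ∑ n ∈ Ioc 0 X, ‖u (sm 0 y n) - ρ n * u (sm w y n)‖ ≤ η * X := by
    calc ∑ n ∈ Ioc 0 X, ‖u (sm 0 y n) - ρ n * u (sm w y n)‖
        ≤ ∑ n ∈ Ioc 0 X, (if ∃ p ∈ PP 0 w, p ^ r ∣ n then 2 else 0 : ℝ) := by
          refine sum_le_sum fun n hn => ?_
          have hn0 : n ≠ 0 := by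
            have := (mem_Ioc.1 hn).1
            omega
          split_ifs with hb
          · refine (norm_sub_le _ _).trans ?_
            have h1 := hu.1 (sm 0 y n)
            have h2 : ‖ρ n * u (sm w y n)‖ ≤ 1 := by
              rw [norm_mul]
              exact mul_le_one₀ (hρ1 n) (norm_nonneg _) (hu.1 _)
            linarith
          · push Not at hb
            rw [sm_mul_sm w y n (by omega), hu.2.2 _ _ (sm_cop w y n), hρ]
            dsimp only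
            rw [gcd_Pr w r n hn0 hb, sub_self, norm_zero]
      _ = 2 * (((Ioc 0 X).filter (fun n => ∃ p ∈ PP 0 w, p ^ r ∣ n)).card : ℝ) := by
          rw [← sum_filter, sum_const, nsmul_eq_mul]
          ring
      _ ≤ 2 * (w / 2 ^ r * X) := by
          gcongr
          exact card_bad w r X
      _ ≤ η * X := by
          rw [← mul_assoc]
          refine mul_le_mul_of_nonneg_right ?_ hX0.le
          have h1 : (1 / 2 : ℝ) ^ r * (2 * (w + 1)) ≤ η := by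
            have := hr.le
            rw [le_div_iff₀ (by positivity)] at this
            exact this
          have h2 : 2 * ((w : ℝ) / 2 ^ r) = (1 / 2 : ℝ) ^ r * (2 * w) := by
            rw [one_div, inv_pow]
            field_simp
          rw [h2]
          refine le_trans ?_ h1
          gcongr
          linarith
  -- the main term
  obtain ⟨hT, hmain⟩ := hy0 y (by omega)
  obtain ⟨S, hS⟩ : ∃ S : ℂ, S = ∑ d ∈ Icc 1 (y ^ K1), u d * (mu w y d : ℂ) := ⟨_, rfl⟩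
  have hSn : ‖S‖ ≤ 2 * η := by
    have h1 := trunc w y (y ^ K1) u hu
    rw [← hS] at h1
    have h2 := (abs_le.1 hT).1
    have h3 := hy1 y (by omega)
    have h4 := norm_le_norm_sub_add S (Eu w y u)
    linarith
  have hM : ‖∑ n ∈ (Ioc 0 X).filter (fun n => n ≡ b [MOD Q]), ρ n * u (sm w y n)‖ ≤ 3 * η * X := by
    rw [split_mod X Q Q' b hQ'1 ⟨Pr w r, hQ'⟩]
    have h1 : ∀ c ∈ (range Q').filter (fun c => c ≡ b [MOD Q]),
        ‖∑ n ∈ (Ioc 0 X).filter (fun n => n ≡ c [MOD Q']), ρ n * u (sm w y n)‖ ≤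
          3 * η * X / Q' := by
      intro c _
      have h2 : ∑ n ∈ (Ioc 0 X).filter (fun n => n ≡ c [MOD Q']), ρ n * u (sm w y n) =
          ρ c * ∑ n ∈ (Ioc 0 X).filter (fun n => n ≡ c [MOD Q']), u (sm w y n) := by
        rw [mul_sum]
        refine sum_congr rfl fun n hn => ?_
        congr 1
        rw [hρ]
        dsimp only
        congr 1
        exact ((mem_filter.1 hn).2.of_dvd ⟨Q, by rw [hQ']; ring⟩).gcd_eq
      rw [h2, norm_mul]
      refine (mul_le_of_le_one_left (norm_nonneg _) (hρ1 c)).trans ?_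
      have h3 := hmain c X hyX u hu.1
      rw [← hS] at h3
      have h4 := norm_le_norm_sub_add ((Q' : ℂ) / (X : ℂ) *
        ∑ m ∈ (Ioc 0 X).filter (fun m => m ≡ c [MOD Q']), u (sm w y m)) S
      have h5 : ‖(Q' : ℂ) / (X : ℂ) *
        ∑ m ∈ (Ioc 0 X).filter (fun m => m ≡ c [MOD Q']), u (sm w y m)‖ ≤ 3 * η := by linarith
      rw [norm_mul, norm_div, Complex.norm_natCast, Complex.norm_natCast] at h5
      have hQ'0 : (0 : ℝ) < Q' := by exact_mod_cast hQ'1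
      rw [le_div_iff₀ hQ'0]
      have h6 := mul_le_mul_of_nonneg_right h5 hX0.le
      calc _ = (Q' : ℝ) / X * ‖∑ m ∈ (Ioc 0 X).filter (fun m => m ≡ c [MOD Q']), u (sm w y m)‖ *
            X := by
            field_simp
        _ ≤ _ := h6
    calc _ ≤ ∑ c ∈ (range Q').filter (fun c => c ≡ b [MOD Q]), 3 * η * X / Q' :=
          (norm_sum_le _ _).trans (sum_le_sum h1)
      _ ≤ ∑ c ∈ range Q', 3 * η * X / Q' :=
          sum_le_sum_of_subset_of_nonneg (filter_subset _ _) fun _ _ _ => by positivity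
      _ = 3 * η * X := by
          rw [sum_const, card_range, nsmul_eq_mul]
          have hQ'0 : (Q' : ℝ) ≠ 0 := by exact_mod_cast (by omega : Q' ≠ 0)
          field_simp
  -- together
  have h1 : ∑ n ∈ (Ioc 0 X).filter (fun n => n ≡ b [MOD Q]), u n =
      ∑ n ∈ (Ioc 0 X).filter (fun n => n ≡ b [MOD Q]), (u n - u (sm 0 y n)) +
      ∑ n ∈ (Ioc 0 X).filter (fun n => n ≡ b [MOD Q]), (u (sm 0 y n) - ρ n * u (sm w y n)) +
      ∑ n ∈ (Ioc 0 X).filter (fun n => n ≡ b [MOD Q]), ρ n * u (sm w y n) := by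
    rw [← sum_add_distrib, ← sum_add_distrib]
    refine sum_congr rfl fun n _ => ?_
    ring
  have h2 : ‖∑ n ∈ (Ioc 0 X).filter (fun n => n ≡ b [MOD Q]), (u n - u (sm 0 y n))‖ ≤ η * X :=
    ((norm_sum_le _ _).trans (sum_le_sum_of_subset_of_nonneg (filter_subset _ _)
      fun _ _ _ => norm_nonneg _)).trans hN1
  have h3 : ‖∑ n ∈ (Ioc 0 X).filter (fun n => n ≡ b [MOD Q]),
      (u (sm 0 y n) - ρ n * u (sm w y n))‖ ≤ η * X :=
    ((norm_sum_le _ _).trans (sum_le_sum_of_subset_of_nonneg (filter_subset _ _)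
      fun _ _ _ => norm_nonneg _)).trans hN2
  rw [h1]
  refine (norm_add₃_le).trans ?_
  have h4 : ε * X = 6 * η * X := by rw [hη]; ring
  have h5 : 0 ≤ η * X := by positivity
  rw [h4]
  linarith

/-- twisting by a character -/
lemma meanB (u : ℕ → ℂ) (hA : ∀ Q b : ℕ, 1 ≤ Q → ∀ ε : ℝ, 0 < ε → ∃ X₀ : ℕ, ∀ X : ℕ, X₀ ≤ X →
      ‖∑ n ∈ (Ioc 0 X).filter (fun n => n ≡ b [MOD Q]), u n‖ ≤ ε * X)
    (q : ℕ) (χ : DirichletCharacter ℂ q) (hq : 1 ≤ q) (Q b : ℕ) (hQ : 1 ≤ Q) (ε : ℝ) (hε : 0 < ε) :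
    ∃ X₀ : ℕ, ∀ X : ℕ, X₀ ≤ X →
      ‖∑ n ∈ (Ioc 0 X).filter (fun n => n ≡ b [MOD Q]), χ (n : ZMod q) * u n‖ ≤ ε * X := by
  classical
  have hQ' : 1 ≤ Q * q := Nat.mul_pos hQ hq
  have hQ'0 : (0 : ℝ) < (Q * q : ℕ) := by exact_mod_cast hQ'
  choose X₀ hX₀ using fun c : ℕ => hA (Q * q) c hQ' (ε / (Q * q : ℕ)) (by positivity)
  refine ⟨∑ c ∈ range (Q * q), X₀ c, fun X hX => ?_⟩
  rw [split_mod X Q (Q * q) b hQ' ⟨q, rfl⟩]
  calc _ ≤ ∑ c ∈ (range (Q * q)).filter (fun c => c ≡ b [MOD Q]), ε / (Q * q : ℕ) * X := by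
        refine (norm_sum_le _ _).trans (sum_le_sum fun c hc => ?_)
        have hc' := mem_range.1 (mem_filter.1 hc).1
        have h2 : ∑ n ∈ (Ioc 0 X).filter (fun n => n ≡ c [MOD Q * q]), χ (n : ZMod q) * u n =
            χ (c : ZMod q) * ∑ n ∈ (Ioc 0 X).filter (fun n => n ≡ c [MOD Q * q]), u n := by
          rw [mul_sum]
          refine sum_congr rfl fun n hn => ?_
          congr 2
          rw [ZMod.natCast_eq_natCast_iff]
          exact (mem_filter.1 hn).2.of_dvd ⟨Q, by ring⟩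
        rw [h2, norm_mul]
        refine (mul_le_of_le_one_left (norm_nonneg _) (χ.norm_le_one _)).trans ?_
        refine hX₀ c X (le_trans ?_ hX)
        exact single_le_sum (f := X₀) (fun _ _ => Nat.zero_le _) (mem_range.2 hc')
    _ ≤ ∑ c ∈ range (Q * q), ε / (Q * q : ℕ) * X :=
        sum_le_sum_of_subset_of_nonneg (filter_subset _ _) fun _ _ _ => by positivity
    _ = ε * X := by
        rw [sum_const, card_range, nsmul_eq_mul]
        field_simp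

lemma abel (v g : ℕ → ℂ) (X : ℕ) : ∑ n ∈ Ioc 0 X, v n * g n =
    (∑ n ∈ Ioc 0 X, v n) * g (X + 1) -
      ∑ M ∈ Ioc 0 X, (∑ n ∈ Ioc 0 M, v n) * (g (M + 1) - g M) := by
  induction X with
  | zero => simp
  | succ X ih =>
    rw [sum_Ioc_succ_top (Nat.zero_le X), ih, sum_Ioc_succ_top (Nat.zero_le X),
      sum_Ioc_succ_top (Nat.zero_le X)]
    rw [sum_Ioc_succ_top (Nat.zero_le X)]
    ring

lemma nit_diff (t : ℝ) (M : ℕ) (hM : 1 ≤ M) : ‖nit t (M + 1) - nit t M‖ ≤ |t| / M := by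
  have hM0 : (0 : ℝ) < M := by exact_mod_cast hM
  unfold nit
  obtain ⟨x, hx⟩ : ∃ x : ℝ, x = t * Real.log ((M + 1 : ℕ) : ℝ) - t * Real.log M := ⟨_, rfl⟩
  have h1 : Complex.exp (Complex.I * ((t * Real.log ((M + 1 : ℕ) : ℝ) : ℝ) : ℂ)) -
      Complex.exp (Complex.I * ((t * Real.log M : ℝ) : ℂ)) =
      Complex.exp (Complex.I * ((t * Real.log M : ℝ) : ℂ)) *
        (Complex.exp (Complex.I * (x : ℂ)) - 1) := by
    rw [mul_sub, ← Complex.exp_add, mul_one]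
    congr 2
    rw [hx]
    push_cast
    ring
  have h2 : ‖Complex.exp (Complex.I * ((t * Real.log M : ℝ) : ℂ))‖ = 1 := by
    rw [mul_comm]
    exact Complex.norm_exp_ofReal_mul_I _
  rw [h1, norm_mul, h2, one_mul]
  refine (Real.norm_exp_I_mul_ofReal_sub_one_le).trans ?_
  rw [Real.norm_eq_abs, hx, ← mul_sub, abs_mul, div_eq_mul_inv]
  refine mul_le_mul_of_nonneg_left ?_ (abs_nonneg t)
  rw [← Real.log_div (by positivity) hM0.ne']
  have h3 : ((M + 1 : ℕ) : ℝ) / M = 1 + (M : ℝ)⁻¹ := by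
    push_cast
    field_simp
  rw [h3]
  have h4 : 0 ≤ Real.log (1 + (M : ℝ)⁻¹) := Real.log_nonneg (by
    have : 0 < (M : ℝ)⁻¹ := by positivity
    linarith)
  rw [abs_of_nonneg h4]
  have h5 := Real.log_le_sub_one_of_pos (show 0 < 1 + (M : ℝ)⁻¹ by positivity)
  linarith

/-- twisting by `n ^ {i t}` -/
lemma meanC (v : ℕ → ℂ) (hv : ∀ n, ‖v n‖ ≤ 1) (h : ∀ ε : ℝ, 0 < ε → ∃ X₀ : ℕ, ∀ X : ℕ, X₀ ≤ X →
      ‖∑ n ∈ Ioc 0 X, v n‖ ≤ ε * X) (t : ℝ) (ε : ℝ) (hε : 0 < ε) : ∃ X₀ : ℕ, ∀ X : ℕ, X₀ ≤ X →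
      ‖∑ n ∈ Ioc 0 X, v n * nit t n‖ ≤ ε * X := by
  obtain ⟨δ, hδ⟩ : ∃ δ : ℝ, δ = ε / (2 * (1 + |t|)) := ⟨_, rfl⟩
  have ht0 := abs_nonneg t
  have hδ0 : 0 < δ := by rw [hδ]; positivity
  obtain ⟨X₁, hX₁⟩ := h δ hδ0
  obtain ⟨X₂, hX₂⟩ := exists_nat_gt (2 * |t| * X₁ / ε)
  refine ⟨X₁ + X₂, fun X hX => ?_⟩
  have hA : ∀ M : ℕ, ‖∑ n ∈ Ioc 0 M, v n‖ ≤ M := by
    intro M
    refine (norm_sum_le _ _).trans ((sum_le_sum fun m _ => hv _).trans ?_)
    rw [sum_const, Nat.card_Ioc, nsmul_eq_mul, mul_one, Nat.sub_zero]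
  have hnit : ∀ n : ℕ, ‖nit t n‖ = 1 := by
    intro n
    unfold nit
    rw [mul_comm]
    exact Complex.norm_exp_ofReal_mul_I _
  rw [abel]
  refine (norm_sub_le _ _).trans ?_
  have h1 : ‖(∑ n ∈ Ioc 0 X, v n) * nit t (X + 1)‖ ≤ δ * X := by
    rw [norm_mul, hnit, mul_one]
    exact hX₁ X (by omega)
  have h2 : ‖∑ M ∈ Ioc 0 X, (∑ n ∈ Ioc 0 M, v n) * (nit t (M + 1) - nit t M)‖ ≤
      |t| * (X₁ + δ * X) := by
    calc ‖∑ M ∈ Ioc 0 X, (∑ n ∈ Ioc 0 M, v n) * (nit t (M + 1) - nit t M)‖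
        ≤ ∑ M ∈ Ioc 0 X, (|t| * (if M ≤ X₁ then 1 else 0) + |t| * δ) := by
          refine (norm_sum_le _ _).trans (sum_le_sum fun M hM => ?_)
          have hM1 := (mem_Ioc.1 hM).1
          have hM0 : (0 : ℝ) < M := by exact_mod_cast hM1
          rw [norm_mul]
          by_cases hMX : M ≤ X₁
          · rw [if_pos hMX, mul_one]
            calc ‖∑ n ∈ Ioc 0 M, v n‖ * ‖nit t (M + 1) - nit t M‖ ≤ M * (|t| / M) :=
                  mul_le_mul (hA M) (nit_diff t M hM1) (norm_nonneg _) hM0.le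
              _ = |t| := by field_simp
              _ ≤ |t| + |t| * δ := by
                have : 0 ≤ |t| * δ := by positivity
                linarith
          · rw [if_neg hMX, mul_zero, zero_add]
            calc ‖∑ n ∈ Ioc 0 M, v n‖ * ‖nit t (M + 1) - nit t M‖ ≤ (δ * M) * (|t| / M) :=
                  mul_le_mul (hX₁ M (by omega)) (nit_diff t M hM1) (norm_nonneg _) (by positivity)
              _ = |t| * δ := by field_simp
      _ ≤ |t| * (X₁ + δ * X) := by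
          rw [sum_add_distrib, ← mul_sum, sum_const, Nat.card_Ioc, nsmul_eq_mul, Nat.sub_zero]
          have h3 : ∑ M ∈ Ioc 0 X, (if M ≤ X₁ then 1 else 0 : ℝ) ≤ X₁ := by
            rw [← sum_filter, sum_const, nsmul_eq_mul, mul_one]
            have h4 : ((Ioc 0 X).filter (fun M => M ≤ X₁)).card ≤ (Ioc 0 X₁).card := by
              refine card_le_card fun M hM => ?_
              rw [mem_filter, mem_Ioc] at hM
              rw [mem_Ioc]
              omega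
            rw [Nat.card_Ioc, Nat.sub_zero] at h4
            exact_mod_cast h4
          have h5 := mul_le_mul_of_nonneg_left h3 ht0
          linarith
  have h3 : |t| * X₁ ≤ ε / 2 * X := by
    have h4 : (X₂ : ℝ) ≤ X := by exact_mod_cast (by omega : X₂ ≤ X)
    have h5 := hX₂.le.trans h4
    rw [div_le_iff₀ hε] at h5
    linarith
  have h4 : δ * X + |t| * (δ * X) = ε / 2 * X := by
    rw [hδ]
    field_simp
  linarith

theorem t_APT : S_APT := by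
  classical
  intro q χ t u f hq hu hut hns hf Q b hQ
  have hA := fun Q b hQ ε hε => meanA u hu hut hns Q b hQ ε hε
  obtain ⟨v, hv⟩ : ∃ v : ℕ → ℂ, v = fun n => if n ≡ b [MOD Q] then χ (n : ZMod q) * u n else 0 :=
    ⟨_, rfl⟩
  have hv1 : ∀ n, ‖v n‖ ≤ 1 := by
    intro n
    rw [hv]
    dsimp only
    split_ifs
    · rw [norm_mul]
      exact mul_le_one₀ (χ.norm_le_one _) (norm_nonneg _) (hu.1 n)
    · simp
  have hB : ∀ ε : ℝ, 0 < ε → ∃ X₀ : ℕ, ∀ X : ℕ, X₀ ≤ X → ‖∑ n ∈ Ioc 0 X, v n‖ ≤ ε * X := by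
    intro ε hε
    obtain ⟨X₀, hX₀⟩ := meanB u hA q χ hq Q b hQ ε hε
    refine ⟨X₀, fun X hX => ?_⟩
    have h1 := hX₀ X hX
    rw [sum_filter] at h1
    rw [hv]
    exact h1
  rw [Metric.tendsto_atTop]
  intro ε hε
  obtain ⟨X₀, hX₀⟩ := meanC v hv1 hB t (ε / 2) (by positivity)
  refine ⟨X₀ + 1, fun X hX => ?_⟩
  have hX0 : (0 : ℝ) < X := by exact_mod_cast (by omega : 0 < X)
  rw [dist_zero_right, norm_div, Complex.norm_natCast, div_lt_iff₀ hX0]
  have h1 : ∑ n ∈ (Ioc 0 X).filter (fun n => n ≡ b [MOD Q]), f n =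
      ∑ n ∈ Ioc 0 X, v n * nit t n := by
    rw [sum_filter]
    refine sum_congr rfl fun n hn => ?_
    rw [hv]
    dsimp only
    split_ifs
    · rw [hf n (mem_Ioc.1 hn).1]
      ring
    · rw [zero_mul]
  rw [h1]
  have h2 := hX₀ X (by omega)
  have : ε / 2 * X < ε * X := by
    have : 0 < ε * X := by positivity
    linarith
  linarith

end Pool.Agent.Q239.EB
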