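import Pool.Agent.Q270.EB.Stm
import Pool.Agent.W479.TLClaim

/-!
Project EB (helper270), job APT, first part: the Euler product over the primes in `(w, y]`.
-/

set_option autoImplicit false

namespace Pool.Agent.Q239.EB

open Finset Filter Pool.Agent.Q270.EA Pool.Agent.Q270.EB
open Pool.Agent.W208.TL (sm PP mu)

lemma mem_PP2 {w y l : ℕ} : l ∈ PP w y ↔ (w < l ∧ l ≤ y) ∧ l.Prime := by
  unfold PP
  rw [mem_filter, mem_Ioc]

/-- one Euler factor -/
lemma factor_bound (u : ℕ → ℂ) (hu : ∀ n, ‖u n‖ ≤ 1) (hu1 : u 1 = 1) (p : ℕ) (hp : p.Prime) :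
    ‖((1 - 1 / (p : ℝ) : ℝ) : ℂ) * ∑' n : ℕ, u (p ^ n) / ((p ^ n : ℕ) : ℂ)‖ ≤
      Real.exp (-((1 - (u p).re) / (2 * p)) + 4 * ((p : ℝ) ^ 2)⁻¹) := by
  have hp2 : (2 : ℝ) ≤ p := by exact_mod_cast hp.two_le
  obtain ⟨q, hq⟩ : ∃ q : ℝ, q = 1 / (p : ℝ) := ⟨_, rfl⟩
  have hq0 : 0 < q := by rw [hq]; positivity
  have hq1 : q ≤ 1 / 2 := by
    rw [hq]
    exact one_div_le_one_div_of_le (by norm_num) hp2
  obtain ⟨F, hF⟩ : ∃ F : ℕ → ℂ, F = fun n => u (p ^ n) / ((p ^ n : ℕ) : ℂ) := ⟨_, rfl⟩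
  have hFn : ∀ n, ‖F n‖ ≤ q ^ n := by
    intro n
    rw [hF, hq]
    dsimp only
    rw [norm_div, Complex.norm_natCast, one_div, inv_pow]
    push_cast
    rw [div_eq_mul_inv]
    exact mul_le_of_le_one_left (by positivity) (hu _)
  have hFs : Summable F := Summable.of_norm_bounded (summable_geometric_of_lt_one hq0.le (by linarith)) hFn
  have h1 : ∑' n, F n = 1 + u p * (q : ℂ) + ∑' n, F (n + 2) := by
    rw [← hFs.sum_add_tsum_nat_add 2, sum_range_succ, sum_range_one]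
    congr 2
    · rw [hF]
      simp [hu1]
    · rw [hF, hq]
      push_cast
      simp [div_eq_mul_inv]
  obtain ⟨R, hR⟩ : ∃ R : ℂ, R = ∑' n, F (n + 2) := ⟨_, rfl⟩
  have hRn : ‖R‖ ≤ q ^ 2 * (1 - q)⁻¹ := by
    rw [hR]
    refine tsum_of_norm_bounded ((hasSum_geometric_of_lt_one hq0.le (by linarith)).mul_left (q ^ 2))
      fun n => ?_
    refine (hFn _).trans (le_of_eq ?_)
    ring
  obtain ⟨z, hz⟩ : ∃ z : ℂ, z = u p := ⟨_, rfl⟩
  have hzn : z.re ^ 2 + z.im ^ 2 ≤ 1 := by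
    have h2 := hu p
    rw [← hz] at h2
    have h3 : ‖z‖ ^ 2 ≤ 1 := pow_le_one₀ (norm_nonneg _) h2
    rw [← Complex.normSq_eq_norm_sq, Complex.normSq_apply] at h3
    nlinarith
  have hz1 : z.re ≤ 1 := by nlinarith [sq_nonneg z.im, sq_nonneg (z.re - 1)]
  have hz2 : -1 ≤ z.re := by nlinarith [sq_nonneg z.im, sq_nonneg (z.re + 1)]
  obtain ⟨x, hx⟩ : ∃ x : ℝ, x = (1 - z.re) * q / 2 := ⟨_, rfl⟩
  have hx1 : x ≤ 1 / 2 := by rw [hx]; nlinarith
  have h2 : ‖1 - (1 - z) * (q : ℂ)‖ ≤ Real.exp (-x) := by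
    rw [← pow_le_pow_iff_left₀ (norm_nonneg _) (Real.exp_pos _).le two_ne_zero,
      ← Complex.normSq_eq_norm_sq, Complex.normSq_apply]
    have h3 : Real.exp (-x) ^ 2 = Real.exp (-(2 * x)) := by
      rw [← Real.exp_nat_mul]
      congr 1
      push_cast
      ring
    rw [h3]
    have h4 := Real.add_one_le_exp (-(2 * x))
    refine le_trans ?_ h4
    have h5 : (1 - (1 - z) * (q : ℂ)).re = 1 - (1 - z.re) * q := by
      simp
    have h6 : (1 - (1 - z) * (q : ℂ)).im = z.im * q := by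
      simp
    rw [h5, h6, hx]
    have h7 : 0 ≤ (1 - z.re) * q * (1 - 2 * q) := by
      apply mul_nonneg (mul_nonneg (by linarith) hq0.le)
      linarith
    nlinarith [mul_nonneg (sub_nonneg.2 hzn) (sq_nonneg q)]
  have h3 : ‖((1 - q : ℝ) : ℂ) * (1 + z * (q : ℂ) + R)‖ ≤ Real.exp (-x) + 2 * q ^ 2 := by
    have h4 : ((1 - q : ℝ) : ℂ) * (1 + z * (q : ℂ) + R) =
        (1 - (1 - z) * (q : ℂ)) - z * ((q ^ 2 : ℝ) : ℂ) + ((1 - q : ℝ) : ℂ) * R := by
      push_cast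
      ring
    rw [h4]
    refine (norm_add_le _ _).trans ?_
    have h5 := norm_sub_le (1 - (1 - z) * (q : ℂ)) (z * ((q ^ 2 : ℝ) : ℂ))
    have h6 : ‖z * ((q ^ 2 : ℝ) : ℂ)‖ ≤ q ^ 2 := by
      rw [norm_mul, Complex.norm_real, Real.norm_eq_abs, abs_of_nonneg (by positivity), hz]
      exact mul_le_of_le_one_left (by positivity) (hu p)
    have h7 : ‖((1 - q : ℝ) : ℂ) * R‖ ≤ q ^ 2 := by
      rw [norm_mul, Complex.norm_real, Real.norm_eq_abs, abs_of_nonneg (by linarith)]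
      calc (1 - q) * ‖R‖ ≤ (1 - q) * (q ^ 2 * (1 - q)⁻¹) :=
            mul_le_mul_of_nonneg_left hRn (by linarith)
        _ = q ^ 2 := by
          have : (1 - q) ≠ 0 := by linarith
          field_simp
    linarith
  have h4 : Real.exp (-x) + 2 * q ^ 2 ≤ Real.exp (-x + 4 * q ^ 2) := by
    rw [Real.exp_add]
    have h5 := Real.add_one_le_exp (4 * q ^ 2)
    have h6 := Real.add_one_le_exp (-x)
    have h7 : 0 ≤ q ^ 2 := sq_nonneg q
    nlinarith [Real.exp_pos (-x)]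
  have h5 : -((1 - (u p).re) / (2 * p)) + 4 * ((p : ℝ) ^ 2)⁻¹ = -x + 4 * q ^ 2 := by
    rw [hx, hq, hz]
    field_simp
  rw [h5, ← hq]
  have h6 : ∑' n : ℕ, u (p ^ n) / ((p ^ n : ℕ) : ℂ) = 1 + z * (q : ℂ) + R := by
    have h7 := h1
    rw [hF] at h7
    rw [hz, hR, hF]
    exact h7
  rw [h6]
  exact h3.trans h4

/-- the Euler product -/
noncomputable def Eu (w y : ℕ) (u : ℕ → ℂ) : ℂ :=
  ∏ p ∈ PP w y, (((1 - 1 / (p : ℝ) : ℝ) : ℂ) * ∑' n : ℕ, u (p ^ n) / ((p ^ n : ℕ) : ℂ))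

lemma Eu_bound (w y : ℕ) (u : ℕ → ℂ) (hu : ∀ n, ‖u n‖ ≤ 1) (hu1 : u 1 = 1) :
    ‖Eu w y u‖ ≤ Real.exp (-(∑ p ∈ PP w y, (1 - (u p).re) / (p : ℝ)) / 2 + 8) := by
  unfold Eu
  rw [norm_prod]
  calc ∏ p ∈ PP w y, ‖((1 - 1 / (p : ℝ) : ℝ) : ℂ) * ∑' n : ℕ, u (p ^ n) / ((p ^ n : ℕ) : ℂ)‖
      ≤ ∏ p ∈ PP w y, Real.exp (-((1 - (u p).re) / (2 * p)) + 4 * ((p : ℝ) ^ 2)⁻¹) :=
        prod_le_prod (fun _ _ => norm_nonneg _) fun p hp =>
          factor_bound u hu hu1 p (mem_PP2.1 hp).2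
    _ = Real.exp (∑ p ∈ PP w y, (-((1 - (u p).re) / (2 * p)) + 4 * ((p : ℝ) ^ 2)⁻¹)) := by
        rw [Real.exp_sum]
    _ ≤ _ := by
        apply Real.exp_le_exp.2
        rw [sum_add_distrib, ← mul_sum]
        have h1 : ∑ p ∈ PP w y, ((p : ℝ) ^ 2)⁻¹ ≤ 2 := by
          have h2 := sum_Ioo_inv_sq_le (α := ℝ) 0 (y + 1)
          norm_num at h2
          refine le_trans ?_ h2
          refine sum_le_sum_of_subset_of_nonneg (fun p hp => ?_) fun _ _ _ => by positivity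
          have := mem_PP2.1 hp
          rw [mem_Ioo]
          omega
        have h3 : ∑ p ∈ PP w y, -((1 - (u p).re) / (2 * (p : ℝ))) =
            -(∑ p ∈ PP w y, (1 - (u p).re) / (p : ℝ)) / 2 := by
          rw [sum_neg_distrib, neg_div, sum_div]
          congr 1
          refine sum_congr rfl fun p _ => ?_
          rw [div_div, mul_comm 2 (p : ℝ)]
        rw [h3]
        linarith

lemma sm_eq_iff (w y d : ℕ) : sm w y d = d ↔ d ∈ Nat.factoredNumbers (PP w y) := by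
  rw [Nat.mem_factoredNumbers_iff_primeFactors_subset]
  constructor
  · intro h
    have hd : d ≠ 0 := by
      intro h0
      subst h0
      have h1 := Pool.Agent.W479.TLClaim.sm_pos w y 0
      omega
    refine ⟨hd, fun p hp => ?_⟩
    exact Pool.Agent.W479.TLClaim.prime_of_sm h (Nat.prime_of_mem_primeFactors hp)
      (Nat.dvd_of_mem_primeFactors hp)
  · rintro ⟨hd, hs⟩
    unfold sm
    conv_rhs => rw [← Nat.prod_factorization_pow_eq_self hd]
    refine (prod_subset hs fun l _ hl => ?_).symm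
    rw [← Nat.support_factorization, Finsupp.notMem_support_iff] at hl
    rw [hl, pow_zero]

lemma hasSum_Eu (w y : ℕ) (u : ℕ → ℂ) (hu : BM u) :
    HasSum (fun d => u d * (mu w y d : ℂ)) (Eu w y u) := by
  classical
  obtain ⟨f, hf⟩ : ∃ f : ℕ → ℂ, f = fun n => u n / (n : ℂ) := ⟨_, rfl⟩
  have h1 := (EulerProduct.summable_and_hasSum_factoredNumbers_prod_filter_prime_tsum (f := f)
    (by rw [hf]; simp [hu.2.1]) (fun {m n} hmn => by
      rw [hf]
      dsimp only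
      rw [hu.2.2 m n hmn]
      push_cast
      rw [mul_div_mul_comm]) (fun {p} hp => by
      have hp2 : (2 : ℝ) ≤ p := by exact_mod_cast hp.two_le
      refine Summable.of_nonneg_of_le (fun _ => norm_nonneg _) (fun n => ?_)
        (summable_geometric_of_lt_one (r := 1 / (p : ℝ)) (by positivity)
          (by rw [div_lt_one (by positivity)]; linarith))
      rw [hf]
      dsimp only
      rw [norm_div, Complex.norm_natCast, one_div, inv_pow]
      push_cast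
      rw [div_eq_mul_inv]
      exact mul_le_of_le_one_left (by positivity) (hu.1 _)) (PP w y)).2
  have h2 := (hasSum_subtype_iff_indicator (f := f) (s := Nat.factoredNumbers (PP w y))).1 h1
  have h3 := h2.mul_left ((∏ l ∈ PP w y, (1 - 1 / (l : ℝ)) : ℝ) : ℂ)
  have h4 : (PP w y).filter Nat.Prime = PP w y :=
    filter_true_of_mem fun p hp => (mem_PP2.1 hp).2
  rw [h4] at h3
  have h5 : ((∏ l ∈ PP w y, (1 - 1 / (l : ℝ)) : ℝ) : ℂ) * ∏ p ∈ PP w y, ∑' n : ℕ, f (p ^ n) =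
      Eu w y u := by
    unfold Eu
    rw [Complex.ofReal_prod, ← prod_mul_distrib, hf]
  rw [h5] at h3
  refine h3.congr_fun fun d => ?_
  rw [Set.indicator_apply]
  unfold mu
  by_cases hd : sm w y d = d
  · rw [if_pos hd, if_pos ((sm_eq_iff w y d).1 hd), hf]
    push_cast
    ring
  · rw [if_neg hd, if_neg (fun h => hd ((sm_eq_iff w y d).2 h))]
    simp

lemma Eu_one (w y : ℕ) : Eu w y (fun _ => 1) = 1 := by
  unfold Eu
  refine prod_eq_one fun p hp => ?_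
  have hp2 : (2 : ℝ) ≤ p := by exact_mod_cast (mem_PP2.1 hp).2.two_le
  have h1 : ∑' n : ℕ, (1 : ℂ) / ((p ^ n : ℕ) : ℂ) = ∑' n : ℕ, (1 / (p : ℂ)) ^ n := by
    congr 1
    funext n
    push_cast
    rw [one_div_pow]
  have hn : ‖1 / (p : ℂ)‖ < 1 := by
    rw [norm_div, norm_one, Complex.norm_natCast, div_lt_one (by positivity)]
    linarith
  rw [h1, tsum_geometric_of_norm_lt_one hn]
  push_cast
  refine mul_inv_cancel₀ ?_
  rw [sub_ne_zero]
  intro h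
  rw [← h, norm_one] at hn
  exact lt_irrefl _ hn

lemma hasSum_mu (w y : ℕ) : HasSum (fun d => mu w y d) 1 := by
  have h1 := hasSum_Eu w y (fun _ => 1) ⟨fun _ => by simp, rfl, fun _ _ _ => by simp⟩
  rw [Eu_one] at h1
  simp only [one_mul] at h1
  have h2 : HasSum (fun d => (mu w y d : ℂ)) ((1 : ℝ) : ℂ) := by simpa using h1
  exact Complex.hasSum_ofReal.1 h2

/-- truncation -/
lemma trunc (w y Z : ℕ) (u : ℕ → ℂ) (hu : BM u) :
    ‖∑ d ∈ Icc 1 Z, u d * (mu w y d : ℂ) - Eu w y u‖ ≤ 1 - ∑ d ∈ Icc 1 Z, mu w y d := by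
  have h1 := hasSum_Eu w y u hu
  have h2 := hasSum_mu w y
  have h3 := h1.summable.sum_add_tsum_compl (s := Icc 1 Z)
  have h4 := h2.summable.sum_add_tsum_compl (s := Icc 1 Z)
  rw [h1.tsum_eq] at h3
  rw [h2.tsum_eq] at h4
  have h5 : ∑ d ∈ Icc 1 Z, u d * (mu w y d : ℂ) - Eu w y u =
      - ∑' d : ((((Icc 1 Z : Finset ℕ) : Set ℕ)ᶜ : Set ℕ) : Type), u d * (mu w y d : ℂ) := by
    rw [← h3]
    ring
  rw [h5, norm_neg, ← h4, add_sub_cancel_left]
  refine tsum_of_norm_bounded (h2.summable.subtype _).hasSum fun d => ?_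
  have h6 : 0 ≤ mu w y d := Pool.Agent.W479.TLClaim.mu_nonneg w y d
  rw [norm_mul, Complex.norm_real, Real.norm_eq_abs, abs_of_nonneg h6]
  exact mul_le_of_le_one_left h6 (hu.1 _)

/-- the Euler products tend to zero -/
lemma Eu_small (w : ℕ) (u : ℕ → ℂ) (hu : BM u)
    (hns : ¬ Summable (fun p : ℕ => if p.Prime then (1 - (u p).re) / (p : ℝ) else 0))
    (ε : ℝ) (hε : 0 < ε) : ∃ y₀ : ℕ, ∀ y : ℕ, y₀ ≤ y → ‖Eu w y u‖ ≤ ε := by
  obtain ⟨h, hh⟩ : ∃ h : ℕ → ℝ, h = fun p : ℕ => if p.Prime then (1 - (u p).re) / (p : ℝ) else 0 :=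
    ⟨_, rfl⟩
  have hre : ∀ p, (u p).re ≤ 1 := fun p => (Complex.re_le_norm _).trans (hu.1 p)
  have h0 : ∀ p, 0 ≤ h p := by
    intro p
    rw [hh]
    dsimp only
    split_ifs
    · exact div_nonneg (by linarith [hre p]) (Nat.cast_nonneg _)
    · exact le_rfl
  rw [← hh, not_summable_iff_tendsto_nat_atTop_of_nonneg h0] at hns
  obtain ⟨B, hB⟩ : ∃ B : ℝ, B = ∑ p ∈ range (w + 1), h p := ⟨_, rfl⟩
  obtain ⟨Y, hY⟩ := eventually_atTop.1 (hns.eventually_ge_atTop (B + 2 * (8 - Real.log ε)))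
  refine ⟨Y, fun y hy => ?_⟩
  refine (Eu_bound w y u hu.1 hu.2.1).trans ?_
  have h1 := hY (y + 1) (by omega)
  have h2 : ∑ p ∈ range (y + 1), h p ≤ B + ∑ p ∈ PP w y, (1 - (u p).re) / (p : ℝ) := by
    have h3 : ∑ p ∈ PP w y, (1 - (u p).re) / (p : ℝ) = ∑ p ∈ Ioc w y, h p := by
      unfold PP
      rw [sum_filter, hh]
    rw [h3, hB]
    calc ∑ p ∈ range (y + 1), h p ≤ ∑ p ∈ range (w + 1) ∪ Ioc w y, h p := by
          refine sum_le_sum_of_subset_of_nonneg (fun p hp => ?_) fun _ _ _ => h0 _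
          rw [mem_range] at hp
          rw [mem_union, mem_range, mem_Ioc]
          omega
      _ ≤ _ := by
          rw [← sum_union_inter]
          have : 0 ≤ ∑ p ∈ range (w + 1) ∩ Ioc w y, h p := sum_nonneg fun _ _ => h0 _
          linarith
  rw [← Real.exp_log hε]
  apply Real.exp_le_exp.2
  linarith

end Pool.Agent.Q239.EB
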